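import Pool.Agent.Helper60.BQ.H1

/-!
MP_986e36_gt, block H2: the logarithmic derivatives of `C¹` paths of nonzero quaternions are dense
in `L²([0,1], ℍ)`.
-/

open scoped Manifold ContDiff Quaternion ENNReal NNReal Topology
open Bundle Set Metric

noncomputable section

namespace Helper99.BQ

section H2

/-- clipping of a real number to `[-R, R]` -/
def clip (R a : ℝ) : ℝ := max (-R) (min a R)

lemma abs_clip_sub_le (R a b : ℝ) : |clip R a - clip R b| ≤ |a - b| := by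
  unfold clip
  refine (abs_max_sub_max_le_max _ _ _ _).trans (max_le (by simp) ?_)
  refine (abs_min_sub_min_le_max _ _ _ _).trans (max_le le_rfl (by simp))

lemma abs_clip_le {R : ℝ} (hR : 0 ≤ R) (a : ℝ) : |clip R a| ≤ |a| := by
  have h := abs_clip_sub_le R a 0
  have h0 : clip R 0 = 0 := by
    unfold clip
    rw [min_eq_left hR, max_eq_right (by linarith)]
  rwa [h0, sub_zero, sub_zero] at h

lemma abs_clip_le' {R : ℝ} (hR : 0 ≤ R) (a : ℝ) : |clip R a| ≤ R := by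
  unfold clip
  rw [abs_le]
  refine ⟨le_max_left _ _, max_le (by linarith) (min_le_right _ _)⟩

lemma clip_eq {R a : ℝ} (h : |a| ≤ R) : clip R a = a := by
  rw [abs_le] at h
  unfold clip
  rw [min_eq_left h.2, max_eq_right h.1]

/-- clipping of the coordinates of a quaternion -/
def qclip (R : ℝ) (x : ℍ[ℝ]) : ℍ[ℝ] := ⟨clip R x.re, clip R x.imI, clip R x.imJ, clip R x.imK⟩

lemma qnorm_sq (x : ℍ[ℝ]) : ‖x‖ ^ 2 = x.re ^ 2 + x.imI ^ 2 + x.imJ ^ 2 + x.imK ^ 2 := by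
  rw [pow_two, ← Quaternion.normSq_eq_norm_mul_self, Quaternion.normSq_def']

lemma norm_qclip_sub_le (R : ℝ) (x y : ℍ[ℝ]) : ‖qclip R x - qclip R y‖ ≤ ‖x - y‖ := by
  apply le_of_sq_le_sq _ (norm_nonneg _)
  rw [qnorm_sq, qnorm_sq]
  have h1 := sq_le_sq.2 (abs_clip_sub_le R x.re y.re)
  have h2 := sq_le_sq.2 (abs_clip_sub_le R x.imI y.imI)
  have h3 := sq_le_sq.2 (abs_clip_sub_le R x.imJ y.imJ)
  have h4 := sq_le_sq.2 (abs_clip_sub_le R x.imK y.imK)
  change (clip R x.re - clip R y.re) ^ 2 + (clip R x.imI - clip R y.imI) ^ 2 +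
    (clip R x.imJ - clip R y.imJ) ^ 2 + (clip R x.imK - clip R y.imK) ^ 2 ≤
    (x.re - y.re) ^ 2 + (x.imI - y.imI) ^ 2 + (x.imJ - y.imJ) ^ 2 + (x.imK - y.imK) ^ 2
  linarith

lemma norm_qclip_le {R : ℝ} (hR : 0 ≤ R) (x : ℍ[ℝ]) : ‖qclip R x‖ ≤ ‖x‖ := by
  apply le_of_sq_le_sq _ (norm_nonneg _)
  rw [qnorm_sq, qnorm_sq]
  have h1 := sq_le_sq.2 (abs_clip_le hR x.re)
  have h2 := sq_le_sq.2 (abs_clip_le hR x.imI)
  have h3 := sq_le_sq.2 (abs_clip_le hR x.imJ)
  have h4 := sq_le_sq.2 (abs_clip_le hR x.imK)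
  simp only [qclip]
  linarith

lemma norm_qclip_le' {R : ℝ} (hR : 0 ≤ R) (x : ℍ[ℝ]) : ‖qclip R x‖ ≤ 2 * R := by
  apply le_of_sq_le_sq _ (by linarith)
  rw [qnorm_sq]
  have h1 := abs_le.1 (abs_clip_le' hR x.re)
  have h2 := abs_le.1 (abs_clip_le' hR x.imI)
  have h3 := abs_le.1 (abs_clip_le' hR x.imJ)
  have h4 := abs_le.1 (abs_clip_le' hR x.imK)
  simp only [qclip]
  nlinarith

lemma qclip_eq {R : ℝ} {x : ℍ[ℝ]} (h : ‖x‖ ≤ R) : qclip R x = x := by
  have hR : 0 ≤ R := (norm_nonneg _).trans h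
  have h0 : ‖x‖ ^ 2 ≤ R ^ 2 := pow_le_pow_left₀ (norm_nonneg _) h 2
  rw [qnorm_sq] at h0
  have e1 : |x.re| ≤ R := abs_le_of_sq_le_sq (by nlinarith [sq_nonneg x.imI, sq_nonneg x.imJ, sq_nonneg x.imK]) hR
  have e2 : |x.imI| ≤ R := abs_le_of_sq_le_sq (by nlinarith [sq_nonneg x.re, sq_nonneg x.imJ, sq_nonneg x.imK]) hR
  have e3 : |x.imJ| ≤ R := abs_le_of_sq_le_sq (by nlinarith [sq_nonneg x.imI, sq_nonneg x.re, sq_nonneg x.imK]) hR
  have e4 : |x.imK| ≤ R := abs_le_of_sq_le_sq (by nlinarith [sq_nonneg x.imI, sq_nonneg x.imJ, sq_nonneg x.re]) hR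
  unfold qclip
  rw [clip_eq e1, clip_eq e2, clip_eq e3, clip_eq e4]
  rfl

/-- solution of the linear differential equation `g' = g w` -/
lemma exists_linear_ode (w : ℝ → ℍ[ℝ]) (hw : Continuous w) (M : ℝ≥0) (hM : ∀ t, ‖w t‖ ≤ M) :
    ∃ g : ℝ → ℍ[ℝ], g 0 = 1 ∧ ∀ t ∈ Icc (0 : ℝ) 1, HasDerivAt g (g t * w t) t ∧ g t ≠ 0 := by
  set R : ℝ := Real.exp M with hR
  have hR0 : 0 ≤ R := (Real.exp_pos _).le
  have hR1 : 1 ≤ R := Real.one_le_exp M.2
  let L : ℝ≥0 := ⟨2 * R * M, by positivity⟩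
  let t₀ : Icc (-1 : ℝ) 2 := ⟨0, by norm_num, by norm_num⟩
  have hPL : IsPicardLindelof (fun t x => qclip R x * w t) t₀ (1 : ℍ[ℝ]) (2 * L) 0 L M := by
    refine ⟨?_, ?_, ?_, ?_⟩
    · intro t _
      apply LipschitzOnWith.of_dist_le_mul
      intro x _ y _
      rw [dist_eq_norm, dist_eq_norm, ← sub_mul, norm_mul, mul_comm (M : ℝ)]
      exact mul_le_mul (norm_qclip_sub_le R x y) (hM t) (norm_nonneg _) (norm_nonneg _)
    · intro x _
      exact (continuous_const.mul hw).continuousOn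
    · intro t _ x _
      rw [norm_mul]
      exact mul_le_mul (norm_qclip_le' hR0 x) (hM t) (norm_nonneg _) (by positivity)
    · have : max ((2 : ℝ) - t₀) (t₀ - (-1 : ℝ)) = 2 := by
        change max ((2 : ℝ) - 0) (0 - (-1 : ℝ)) = 2
        norm_num
      rw [this]
      push_cast
      linarith
  obtain ⟨α, hα0, hα⟩ := hPL.exists_eq_forall_mem_Icc_hasDerivWithinAt₀
  have hα0' : α 0 = 1 := hα0
  have hder : ∀ t ∈ Ioo (-1 : ℝ) 2, HasDerivAt α (qclip R (α t) * w t) t := fun t ht =>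
    (hα t (Ioo_subset_Icc_self ht)).hasDerivAt (Icc_mem_nhds ht.1 ht.2)
  have hcont : ContinuousOn α (Icc 0 1) := fun t ht =>
    (hder t ⟨by linarith [ht.1], by linarith [ht.2]⟩).continuousAt.continuousWithinAt
  have hbound : ∀ t ∈ Icc (0 : ℝ) 1, ‖α t‖ ≤ R := by
    intro t ht
    have h1 := norm_le_gronwallBound_of_norm_deriv_right_le (f := α)
      (f' := fun t => qclip R (α t) * w t) (δ := 1) (K := M) (ε := 0) (a := 0) (b := 1) hcont
      (fun x hx => (hder x ⟨by linarith [hx.1], by linarith [hx.2]⟩).hasDerivWithinAt)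
      (by rw [hα0', norm_one]) (fun x _ => by
        rw [norm_mul, add_zero, mul_comm (M : ℝ)]
        exact mul_le_mul (norm_qclip_le hR0 _) (hM x) (norm_nonneg _) (norm_nonneg _)) t ht
    rw [gronwallBound_ε0, one_mul, sub_zero] at h1
    refine h1.trans ?_
    rw [hR]
    apply Real.exp_le_exp.2
    nlinarith [M.2, ht.2, ht.1, M.coe_nonneg]
  refine ⟨α, hα0', fun t ht => ?_⟩
  have hder' : ∀ t ∈ Icc (0 : ℝ) 1, HasDerivAt α (α t * w t) t := by
    intro t ht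
    have h1 := hder t ⟨by linarith [ht.1], by linarith [ht.2]⟩
    rwa [qclip_eq (hbound t ht)] at h1
  refine ⟨hder' t ht, ?_⟩
  intro h0
  -- backwards uniqueness
  have h1 := eq_zero_of_abs_deriv_le_mul_abs_self_of_eq_zero_right
    (f := fun s => α (t - s)) (f' := fun s => -(α (t - s) * w (t - s))) (K := M) (a := 0) (b := t)
    (by
      apply hcont.comp (by fun_prop)
      intro s hs
      exact ⟨by linarith [hs.2], by linarith [hs.1, ht.2]⟩)
    (by
      intro s hs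
      have h2 := hder' (t - s) ⟨by linarith [hs.2], by linarith [hs.1, ht.2]⟩
      have h3 : HasDerivAt (fun s : ℝ => t - s) (-1) s := by
        simpa using (hasDerivAt_id s).const_sub t
      have h4 := h2.scomp s h3
      rw [neg_smul, one_smul] at h4
      exact h4.hasDerivWithinAt)
    (by simpa using h0)
    (by
      intro s _
      rw [norm_neg, norm_mul, mul_comm (M : ℝ)]
      exact mul_le_mul_of_nonneg_left (hM _) (norm_nonneg _)) t ⟨ht.1, le_rfl⟩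
  simp only [sub_self] at h1
  rw [hα0'] at h1
  exact one_ne_zero h1

/-- H2 -/
theorem dense_paths (f : HH) {ε : ℝ} (hε : 0 < ε) :
    ∃ (g : ℝ → ℍ[ℝ]) (hg : IsPath g), g 0 = 1 ∧ ‖f - wLp g hg‖ < ε := by
  obtain ⟨w, hw, hwm⟩ := (MeasureTheory.Lp.memLp f).exists_boundedContinuous_eLpNorm_sub_le
    (by norm_num) (ε := ENNReal.ofReal (ε / 2)) (by
      rw [ne_eq, ENNReal.ofReal_eq_zero, not_le]
      linarith)
  obtain ⟨g, hg0, hg⟩ := exists_linear_ode w w.continuous ‖w‖₊ (fun t => w.norm_coe_le_norm t)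
  have hu : UniqueDiffOn ℝ (Icc (0 : ℝ) 1) := uniqueDiffOn_Icc_zero_one
  have hder : ∀ t ∈ Icc (0 : ℝ) 1, derivWithin g (Icc 0 1) t = g t * w t := fun t ht =>
    (hg t ht).1.hasDerivWithinAt.derivWithin (hu t ht)
  have hcont : ContinuousOn g (Icc 0 1) := fun t ht =>
    (hg t ht).1.continuousAt.continuousWithinAt
  have hpath : IsPath g := by
    refine ⟨?_, fun t ht => (hg t ht).2⟩
    rw [contDiffOn_one_iff_derivWithin hu]
    refine ⟨fun t ht => (hg t ht).1.differentiableAt.differentiableWithinAt, ?_⟩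
    exact (hcont.mul w.continuous.continuousOn).congr hder
  have hvel : ∀ t ∈ Icc (0 : ℝ) 1, vel g t = w t := by
    intro t ht
    unfold vel
    rw [hder t ht, inv_mul_cancel_left₀ (hg t ht).2]
  refine ⟨g, hpath, hg0, ?_⟩
  have h1 : wLp g hpath = hwm.toLp w := by
    unfold wLp
    rw [MeasureTheory.MemLp.toLp_eq_toLp_iff]
    unfold μI
    rw [Filter.EventuallyEq, MeasureTheory.ae_restrict_iff' measurableSet_Icc]
    exact Filter.Eventually.of_forall hvel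
  rw [h1]
  have h3 : f - hwm.toLp w = ((MeasureTheory.Lp.memLp f).sub hwm).toLp
      ((f : ℝ → ℍ[ℝ]) - (w : ℝ → ℍ[ℝ])) := by
    rw [MeasureTheory.MemLp.toLp_sub (MeasureTheory.Lp.memLp f) hwm,
      MeasureTheory.Lp.toLp_coeFn]
  rw [h3, MeasureTheory.Lp.norm_toLp]
  have h4 : (MeasureTheory.eLpNorm ((f : ℝ → ℍ[ℝ]) - (w : ℝ → ℍ[ℝ])) 2 μI).toReal ≤ ε / 2 :=
    ENNReal.toReal_le_of_le_ofReal (by linarith) hw
  linarith

end H2

end Helper99.BQ
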