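import Pool.Agent.Helper99.BQ.Defs

/-!
MP_986e36_gt, block L6: the finite-distance subgroup of a compact group with a bi-invariant
extended metric, and the submetry induced by a quotient by isometries.
-/

open scoped Manifold ContDiff Quaternion ENNReal Topology
open Bundle Set Metric

noncomputable section

namespace Helper99.BQ

section L6
variable {G : Type*} [Group G] [EMetricSpace G]

/-- elements at finite distance of `1` -/
def finSub (hl : ∀ g x y : G, edist (g * x) (g * y) = edist x y) : Subgroup G where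
  carrier := {x | edist x 1 ≠ ⊤}
  one_mem' := by simp
  mul_mem' := by
    intro a b ha hb
    simp only [Set.mem_ofPred_eq] at *
    have h1 : edist (a * b) 1 ≤ edist (a * b) (a * 1) + edist (a * 1) 1 := edist_triangle _ _ _
    rw [hl a b 1, mul_one] at h1
    exact ne_top_of_le_ne_top (ENNReal.add_ne_top.2 ⟨hb, ha⟩) h1
  inv_mem' := by
    intro a ha
    simp only [Set.mem_ofPred_eq] at *
    have h1 := hl a a⁻¹ 1
    rw [mul_inv_cancel, mul_one] at h1
    rw [← h1, edist_comm]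
    exact ha

end L6

/-- L6: the finite-distance subgroup (pure metric group theory). -/
theorem exists_metric_group.{u} {n : ℕ} {G : Type u} [Group G] [EMetricSpace G] [CompactSpace G]
    (hl : ∀ g x y : G, edist (g * x) (g * y) = edist x y)
    (hr : ∀ g x y : G, edist (x * g) (y * g) = edist x y)
    (hmid : ∀ x y : G, edist x y ≠ ⊤ →
      ∃ z : G, edist x z = edist x y / 2 ∧ edist z y = edist x y / 2)
    (hchart : ∃ (ψ : EuclideanSpace ℝ (Fin n) → G)
      (μ : EuclideanSpace ℝ (Fin n) → EuclideanSpace ℝ (Fin n) → EuclideanSpace ℝ (Fin n))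
      (C δ : ℝ), 0 ≤ C ∧ 0 < δ ∧ ψ 0 = 1 ∧ (∀ r > 0, ψ '' ball 0 r ∈ 𝓝 (1 : G)) ∧
      (∀ ε > 0, ∃ r > 0, ∀ x y, ‖x‖ < r → ‖y‖ < r →
        ENNReal.ofReal ((1 - ε) * ‖x - y‖) ≤ edist (ψ x) (ψ y) ∧
        edist (ψ x) (ψ y) ≤ ENNReal.ofReal ((1 + ε) * ‖x - y‖)) ∧
      (∀ x y, ‖x‖ < δ → ‖y‖ < δ → ψ x * ψ y = ψ (μ x y)) ∧ μ 0 0 = 0 ∧
      ∀ x y x' y', ‖x‖ < δ → ‖y‖ < δ → ‖x'‖ < δ → ‖y'‖ < δ →
        ‖μ x y - μ x' y' - (x - x') - (y - y')‖ ≤
          C * (‖x‖ + ‖y‖ + ‖x'‖ + ‖y'‖) * (‖x - x'‖ + ‖y - y'‖))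
    {R : Type*} [MetricSpace R] (Γ : Subgroup (G ≃ᵢ G)) (p : G → R) (hp : IsQuotientBy Γ p)
    (x₀ : R) :
    ∃ (K : Type u) (_ : Group K) (_ : MetricSpace K) (_ : CompactSpace K) (_ : BiInv K)
      (_ : LocChart K (EuclideanSpace ℝ (Fin n))) (q : K → R), Submetry q ∧ q 1 = x₀ := by
  classical
  -- the group
  let K := finSub hl
  have hfin : ∀ x y : K, edist x y ≠ ⊤ := by
    intro x y
    have hx : edist (x : G) 1 ≠ ⊤ := x.2
    have hy : edist (y : G) 1 ≠ ⊤ := y.2
    have h1 : edist (x : G) y ≤ edist (x : G) 1 + edist 1 (y : G) := edist_triangle _ _ _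
    rw [edist_comm 1 (y : G)] at h1
    exact ne_top_of_le_ne_top (ENNReal.add_ne_top.2 ⟨hx, hy⟩) h1
  letI mK : MetricSpace K := EMetricSpace.toMetricSpace hfin
  have hdist : ∀ x y : K, dist x y = (edist (x : G) (y : G)).toReal := fun x y => rfl
  have hedist : ∀ x y : K, edist x y = edist (x : G) (y : G) := fun x y => rfl
  have hclosed : IsClosed ({x | edist x 1 ≠ ⊤} : Set G) := by
    rw [← isOpen_compl_iff, EMetric.isOpen_iff]
    intro x hx
    simp only [Set.mem_compl_iff, Set.mem_ofPred_eq, not_not] at hx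
    refine ⟨1, by norm_num, ?_⟩
    intro y hy
    simp only [Set.mem_compl_iff, Set.mem_ofPred_eq, not_not]
    by_contra hy1
    have h1 : edist x 1 ≤ edist x y + edist y 1 := edist_triangle _ _ _
    rw [hx] at h1
    have h2 : edist x y ≠ ⊤ := by
      have : edist y x < 1 := hy
      rw [edist_comm]
      exact ne_top_of_lt this
    exact (ENNReal.add_ne_top.2 ⟨h2, hy1⟩) (top_le_iff.1 h1)
  haveI cK : CompactSpace K := by
    have h1 : IsCompact ({x | edist x 1 ≠ ⊤} : Set G) := hclosed.isCompact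
    exact isCompact_iff_compactSpace.1 h1
  have bK : BiInv K := by
    refine ⟨?_, ?_, ?_⟩
    · intro g x y
      rw [hdist, hdist]
      exact congrArg _ (hl g x y)
    · intro g x y
      rw [hdist, hdist]
      exact congrArg _ (hr g x y)
    · intro x y
      obtain ⟨z, hz1, hz2⟩ := hmid x y (hfin x y)
      have hz3 : edist z 1 ≠ ⊤ := by
        have h1 : edist z 1 ≤ edist z (y : G) + edist (y : G) 1 := edist_triangle _ _ _
        have h2 : edist z (y : G) ≠ ⊤ := by
          rw [hz2]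
          exact ENNReal.div_ne_top (hfin x y) (by norm_num)
        exact ne_top_of_le_ne_top (ENNReal.add_ne_top.2 ⟨h2, y.2⟩) h1
      refine ⟨⟨z, hz3⟩, ?_, ?_⟩
      · rw [hdist, hdist]
        change (edist (x : G) z).toReal = _
        rw [hz1, ENNReal.toReal_div]
        norm_num
      · rw [hdist, hdist]
        change (edist z (y : G)).toReal = _
        rw [hz2, ENNReal.toReal_div]
        norm_num
  -- the chart
  obtain ⟨ψ, μ, C, δ, hC, hδ, hψ0, hnh, hmet, hmul, hμ0, hlip⟩ := hchart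
  obtain ⟨r1, hr1, hm1⟩ := hmet 1 one_pos
  set δ' : ℝ := min δ r1 with hδ'
  have hδ'pos : 0 < δ' := lt_min hδ hr1
  have hψK : ∀ x, ‖x‖ < r1 → edist (ψ x) 1 ≠ ⊤ := by
    intro x hx
    have h1 := (hm1 x 0 hx (by simpa using hr1)).2
    rw [hψ0] at h1
    exact ne_top_of_le_ne_top ENNReal.ofReal_ne_top h1
  let ψK : EuclideanSpace ℝ (Fin n) → K := fun x =>
    if h : edist (ψ x) 1 ≠ ⊤ then ⟨ψ x, h⟩ else 1
  have hψKc : ∀ x, edist (ψ x) 1 ≠ ⊤ → ((ψK x : K) : G) = ψ x := by
    intro x hx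
    have : ψK x = ⟨ψ x, hx⟩ := dif_pos hx
    rw [this]
  have chart : LocChart K (EuclideanSpace ℝ (Fin n)) := by
    refine ⟨ψK, μ, C, δ', hC, hδ'pos, ?_, ?_, ?_, ?_, hμ0, ?_⟩
    · apply Subtype.ext
      rw [hψKc 0 (hψK 0 (by simpa using hr1)), hψ0]
      rfl
    · intro r hr
      have h1 := hnh (min r δ') (lt_min hr hδ'pos)
      have h2 : (fun x : K => (x : G)) ⁻¹' (ψ '' ball 0 (min r δ')) ∈ 𝓝 (1 : K) := by
        have hc : Continuous (fun x : K => (x : G)) := continuous_subtype_val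
        exact hc.continuousAt.preimage_mem_nhds (by simpa using h1)
      refine Filter.mem_of_superset h2 ?_
      rintro x ⟨y, hy, hyx⟩
      rw [mem_ball_zero_iff] at hy
      refine ⟨y, ?_, ?_⟩
      · rw [mem_ball_zero_iff]
        exact hy.trans_le (min_le_left _ _)
      · apply Subtype.ext
        rw [hψKc y (hψK y ((hy.trans_le (min_le_right _ _)).trans_le (min_le_right _ _)))]
        exact hyx
    · intro ε hε
      obtain ⟨r, hr, hm⟩ := hmet ε hε
      refine ⟨min r r1, lt_min hr hr1, ?_⟩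
      intro x y hx hy
      have hxK := hψK x (hx.trans_le (min_le_right _ _))
      have hyK := hψK y (hy.trans_le (min_le_right _ _))
      obtain ⟨h1, h2⟩ := hm x y (hx.trans_le (min_le_left _ _)) (hy.trans_le (min_le_left _ _))
      rw [hdist, hψKc x hxK, hψKc y hyK]
      have hne : edist (ψ x) (ψ y) ≠ ⊤ := ne_top_of_le_ne_top ENNReal.ofReal_ne_top h2
      have h3 : (edist (ψ x) (ψ y)).toReal ≤ (1 + ε) * ‖x - y‖ :=
        ENNReal.toReal_le_of_le_ofReal (by positivity) h2
      have h4 : (1 - ε) * ‖x - y‖ ≤ (edist (ψ x) (ψ y)).toReal :=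
        (ENNReal.ofReal_le_iff_le_toReal hne).1 h1
      rw [abs_le]
      constructor <;> nlinarith
    · intro x y hx hy
      have hxK := hψK x (hx.trans_le (min_le_right _ _))
      have hyK := hψK y (hy.trans_le (min_le_right _ _))
      have h1 := hmul x y (hx.trans_le (min_le_left _ _)) (hy.trans_le (min_le_left _ _))
      have h2 : edist (ψ (μ x y)) 1 ≠ ⊤ := by
        rw [← h1]
        exact K.mul_mem (x := ψ x) (y := ψ y) hxK hyK
      apply Subtype.ext
      rw [hψKc _ h2]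
      change ((ψK x : K) : G) * ((ψK y : K) : G) = _
      rw [hψKc x hxK, hψKc y hyK, h1]
    · intro x y x' y' hx hy hx' hy'
      exact hlip x y x' y' (hx.trans_le (min_le_left _ _)) (hy.trans_le (min_le_left _ _))
        (hx'.trans_le (min_le_left _ _)) (hy'.trans_le (min_le_left _ _))
  -- the submetry
  obtain ⟨hsurj, hquot⟩ := hp
  have hpl : ∀ x y : G, edist (p x) (p y) ≤ edist x y := by
    intro x y
    rw [hquot]
    exact iInf_le (fun γ : Γ => edist x ((γ : G ≃ᵢ G) y)) 1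
  have hpγ : ∀ (γ : Γ) (x : G), p ((γ : G ≃ᵢ G) x) = p x := by
    intro γ x
    have h1 : edist (p ((γ : G ≃ᵢ G) x)) (p x) ≤ 0 := by
      rw [hquot]
      refine (iInf_le (fun γ' : Γ => edist ((γ : G ≃ᵢ G) x) ((γ' : G ≃ᵢ G) x)) γ).trans ?_
      rw [edist_self]
    exact edist_le_zero.1 h1
  have hpc : Continuous p := by
    have : LipschitzWith 1 p := fun x y => by simpa using hpl x y
    exact this.continuous
  obtain ⟨g0, hg0⟩ := hsurj x₀
  refine ⟨K, inferInstance, mK, cK, bK, chart, fun x => p (g0 * x), ⟨?_, ?_⟩, ?_⟩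
  · intro x y
    have h1 := hpl (g0 * x) (g0 * y)
    rw [hl] at h1
    rw [hdist, dist_edist]
    exact ENNReal.toReal_mono (hfin x y) h1
  · intro x y
    obtain ⟨z, hz⟩ := hsurj y
    have hcomp : IsCompact (p ⁻¹' {y}) := (isClosed_singleton.preimage hpc).isCompact
    obtain ⟨w, hw, hmin⟩ := hcomp.exists_isMinOn ⟨z, hz⟩
      (f := fun w : G => edist (g0 * (x : G)) w) (by fun_prop)
    have hw' : p w = y := hw
    have h1 : edist (g0 * (x : G)) w ≤ edist (p (g0 * (x : G))) y := by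
      rw [← hz, hquot]
      refine le_iInf fun γ => ?_
      have h2 : (γ : G ≃ᵢ G) z ∈ p ⁻¹' {y} := by
        change p ((γ : G ≃ᵢ G) z) = y
        rw [hpγ, hz]
      exact hmin h2
    have h2 : edist (p (g0 * (x : G))) y ≤ edist (g0 * (x : G)) w := by
      rw [← hw']
      exact hpl _ _
    have h3 : edist (g0 * (x : G)) w = edist (p (g0 * (x : G))) y := le_antisymm h1 h2
    have h4 : edist (x : G) (g0⁻¹ * w) = edist (p (g0 * (x : G))) y := by
      rw [← h3, ← hl g0 (x : G) (g0⁻¹ * w), mul_inv_cancel_left]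
    have h5 : edist (g0⁻¹ * w) 1 ≠ ⊤ := by
      have h6 : edist (g0⁻¹ * w) 1 ≤ edist (g0⁻¹ * w) (x : G) + edist (x : G) 1 :=
        edist_triangle _ _ _
      refine ne_top_of_le_ne_top (ENNReal.add_ne_top.2 ⟨?_, x.2⟩) h6
      rw [edist_comm, h4]
      exact edist_ne_top _ _
    refine ⟨⟨g0⁻¹ * w, h5⟩, ?_, ?_⟩
    · change p (g0 * (g0⁻¹ * w)) = y
      rw [mul_inv_cancel_left, hw']
    · rw [hdist]
      change (edist (x : G) (g0⁻¹ * w)).toReal = _
      rw [h4, dist_edist]
  · change p (g0 * ((1 : K) : G)) = x₀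
    rw [Subgroup.coe_one, mul_one, hg0]

end Helper99.BQ
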